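import Pool.Agent.W587.MX.Stm

set_option autoImplicit false

namespace Pool.Agent.W164.MX

open Pool.Agent.W587.MX
open Set Filter Topology Metric

theorem nz : T6_NZ := by
  intro f h A U hf hU hpre hh hA hh0 heq hex u0 hu0 hq0
  obtain ⟨t, htU, htne⟩ := hex
  have hhan : AnalyticOnNhd ℂ h U := hh.analyticOnNhd hU
  have hAan : AnalyticOnNhd ℂ A U := hA.analyticOnNhd hU
  have hqd : DifferentiableOn ℂ (fun u => f (h u)) U := by
    intro u hu
    exact (hf.differentiableAt.comp_differentiableWithinAt u (hh u hu))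
  have hqan : AnalyticOnNhd ℂ (fun u => f (h u)) U := hqd.analyticOnNhd hU
  -- c analytic
  have hcan : AnalyticAt ℂ (fun u => A u * deriv h u / h u) u0 :=
    ((hAan u0 hu0).mul (hhan u0 hu0).deriv).div (hhan u0 hu0) (hh0 u0 hu0)
  have hder : ∀ u ∈ U, deriv (fun u => f (h u)) u
      = (A u * deriv h u / h u) * f (h u) := by
    intro u hu
    have h1 : HasDerivAt h (deriv h u) u := (hhan u hu).differentiableAt.hasDerivAt
    have h2 : HasDerivAt f (deriv f (h u)) (h u) := hf.differentiableAt.hasDerivAt
    have h3 := (h2.comp u h1).deriv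
    have h4 : deriv (fun u => f (h u)) u = deriv f (h u) * deriv h u := h3
    rw [h4]
    have h5 := heq u hu
    have h6 := hh0 u hu
    field_simp
    linear_combination (deriv h u) * h5
  have hev : (deriv (fun u => f (h u))) =ᶠ[𝓝 u0]
      ((fun u => A u * deriv h u / h u) * (fun u => f (h u))) := by
    filter_upwards [hU.mem_nhds hu0] with u hu
    exact hder u hu
  have hord := analyticOrderAt_congr hev
  rw [analyticOrderAt_mul hcan (hqan u0 hu0)] at hord
  have hsucc := (hqan u0 hu0).analyticOrderAt_deriv_add_one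
  have hq0' : (fun x => (fun u => f (h u)) x - (fun u => f (h u)) u0) = (fun u => f (h u)) := by
    funext x
    simp [hq0]
  rw [hq0'] at hsucc
  have htop : analyticOrderAt (fun u => f (h u)) u0 = ⊤ := by
    by_contra hne
    rw [hord] at hsucc
    obtain ⟨k, hk⟩ := ENat.ne_top_iff_exists.mp hne
    rw [← hk] at hsucc
    have h1 : analyticOrderAt (fun u => A u * deriv h u / h u) u0 ≠ ⊤ := by
      intro h2
      rw [h2] at hsucc
      simp at hsucc
    obtain ⟨m, hm⟩ := ENat.ne_top_iff_exists.mp h1
    rw [← hm] at hsucc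
    have h3 : m + k + 1 = k := by exact_mod_cast hsucc
    omega
  rw [analyticOrderAt_eq_top] at htop
  have hz := hqan.eqOn_zero_of_preconnected_of_eventuallyEq_zero hpre hu0 htop
  exact htne (hz htU)

end Pool.Agent.W164.MX
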